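import Mathlib

/-!
# Hadamard matrices with a prescribed submatrix

The matrix `M ((i, a), (j, b)) = A i j * K j a * L i b`.
-/

namespace Pool.Agent.H669.Had

open Matrix Finset

/-- sign matrices -/
def IsSign {m n : Type} (A : Matrix m n ℤ) : Prop := ∀ i j, A i j = 1 ∨ A i j = -1

/-- Hadamard matrices -/
def IsHadamard {n : ℕ} (H : Matrix (Fin n) (Fin n) ℤ) : Prop :=
  IsSign H ∧ H * H.transpose = (n : ℤ) • (1 : Matrix (Fin n) (Fin n) ℤ)

theorem sq_sign {x : ℤ} (h : x = 1 ∨ x = -1) : x * x = 1 := by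
  rcases h with h | h <;> simp [h]

theorem sign_mul {x y : ℤ} (hx : x = 1 ∨ x = -1) (hy : y = 1 ∨ y = -1) :
    x * y = 1 ∨ x * y = -1 := by
  rcases hx with h | h <;> rcases hy with h' | h' <;> simp [h, h']

theorem rows {n : ℕ} {H : Matrix (Fin n) (Fin n) ℤ} (h : IsHadamard H) (i i' : Fin n) :
    ∑ j, H i j * H i' j = if i = i' then (n : ℤ) else 0 := by
  have := congrFun (congrFun h.2 i) i'
  simp only [Matrix.mul_apply, Matrix.transpose_apply, Matrix.smul_apply, Matrix.one_apply] at this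
  rw [this]
  split_ifs <;> simp

theorem transpose_isHadamard {n : ℕ} {H : Matrix (Fin n) (Fin n) ℤ} (h : IsHadamard H) :
    IsHadamard H.transpose := by
  refine ⟨fun i j => h.1 j i, ?_⟩
  rw [Matrix.transpose_transpose]
  rcases Nat.eq_zero_or_pos n with hn | hn
  · subst hn
    ext i
    exact i.elim0
  have hq : (H.map (Int.castRingHom ℚ)) * ((H.map (Int.castRingHom ℚ)).transpose) =
      (n : ℚ) • (1 : Matrix (Fin n) (Fin n) ℚ) := by
    have := congrArg (fun M : Matrix (Fin n) (Fin n) ℤ => M.map (Int.castRingHom ℚ)) h.2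
    simp only [Matrix.map_mul, Matrix.transpose_map] at this
    rw [this]
    ext i j
    simp only [Matrix.map_apply, Matrix.smul_apply, Matrix.one_apply]
    split_ifs <;> simp
  have hn' : (n : ℚ) ≠ 0 := by positivity
  have h1 : (H.map (Int.castRingHom ℚ)) *
      ((n : ℚ)⁻¹ • ((H.map (Int.castRingHom ℚ)).transpose)) = 1 := by
    rw [Matrix.mul_smul, hq, smul_smul, inv_mul_cancel₀ hn', one_smul]
  have h2 := mul_eq_one_comm.1 h1
  have h3 : ((H.map (Int.castRingHom ℚ)).transpose) * (H.map (Int.castRingHom ℚ)) =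
      (n : ℚ) • (1 : Matrix (Fin n) (Fin n) ℚ) := by
    rw [Matrix.smul_mul] at h2
    rw [← h2, smul_smul, mul_inv_cancel₀ hn', one_smul]
  ext i j
  have := congrFun (congrFun h3 i) j
  simp only [Matrix.mul_apply, Matrix.transpose_apply, Matrix.smul_apply, Matrix.one_apply,
    Matrix.map_apply] at this ⊢
  have h4 : ((∑ x, H x i * H x j : ℤ) : ℚ) = ((if i = j then (n : ℤ) else 0 : ℤ) : ℚ) := by
    push_cast
    simp only [eq_intCast] at this
    rw [this]
    split_ifs <;> simp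
  have h5 : (∑ x, H x i * H x j : ℤ) = (if i = j then (n : ℤ) else 0 : ℤ) := by exact_mod_cast h4
  rw [h5]
  split_ifs <;> simp

theorem cols {n : ℕ} {H : Matrix (Fin n) (Fin n) ℤ} (h : IsHadamard H) (j j' : Fin n) :
    ∑ i, H i j * H i j' = if j = j' then (n : ℤ) else 0 :=
  rows (transpose_isHadamard h) j j'

/-- normalisation: the column number `c` consists of ones -/
def norm {n : ℕ} (H : Matrix (Fin n) (Fin n) ℤ) (c : Fin n) : Matrix (Fin n) (Fin n) ℤ :=
  fun i j => H i c * H i j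

theorem norm_isHadamard {n : ℕ} {H : Matrix (Fin n) (Fin n) ℤ} (h : IsHadamard H) (c : Fin n) :
    IsHadamard (norm H c) := by
  refine ⟨fun i j => sign_mul (h.1 _ _) (h.1 _ _), ?_⟩
  ext i i'
  simp only [Matrix.mul_apply, Matrix.transpose_apply, Matrix.smul_apply, Matrix.one_apply, norm]
  have : ∀ j, H i c * H i j * (H i' c * H i' j) = H i c * H i' c * (H i j * H i' j) := by
    intro j; ring
  simp only [this, ← Finset.mul_sum, rows h]
  by_cases hi : i = i'
  · subst hi
    simp [sq_sign (h.1 i c)]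
  · simp [hi]

theorem norm_col {n : ℕ} {H : Matrix (Fin n) (Fin n) ℤ} (h : IsHadamard H) (c i : Fin n) :
    norm H c i c = 1 := sq_sign (h.1 i c)

/-- the product -/
def prod {p q : ℕ} (A : Matrix (Fin p) (Fin q) ℤ) (K : Matrix (Fin q) (Fin q) ℤ)
    (L : Matrix (Fin p) (Fin p) ℤ) : Matrix (Fin p × Fin q) (Fin q × Fin p) ℤ :=
  fun x y => A x.1 y.1 * K y.1 x.2 * L x.1 y.2

theorem prod_sign {p q : ℕ} {A : Matrix (Fin p) (Fin q) ℤ} {K : Matrix (Fin q) (Fin q) ℤ}
    {L : Matrix (Fin p) (Fin p) ℤ} (hA : IsSign A) (hK : IsHadamard K) (hL : IsHadamard L) :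
    IsSign (prod A K L) := fun _ _ => sign_mul (sign_mul (hA _ _) (hK.1 _ _)) (hL.1 _ _)

theorem prod_rows {p q : ℕ} {A : Matrix (Fin p) (Fin q) ℤ} {K : Matrix (Fin q) (Fin q) ℤ}
    {L : Matrix (Fin p) (Fin p) ℤ} (hA : IsSign A) (hK : IsHadamard K) (hL : IsHadamard L)
    (x x' : Fin p × Fin q) :
    ∑ y, prod A K L x y * prod A K L x' y = if x = x' then ((p * q : ℕ) : ℤ) else 0 := by
  obtain ⟨i, a⟩ := x
  obtain ⟨i', a'⟩ := x'
  rw [Fintype.sum_prod_type]
  simp only [prod]
  have h1 : ∀ j : Fin q, (∑ b : Fin p, A i j * K j a * L i b * (A i' j * K j a' * L i' b)) =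
      (A i j * A i' j) * (K j a * K j a') * (if i = i' then (p : ℤ) else 0) := by
    intro j
    rw [← rows hL i i', Finset.mul_sum]
    refine Finset.sum_congr rfl fun b _ => ?_
    ring
  simp only [h1]
  by_cases hi : i = i'
  · subst hi
    simp only [sq_sign (hA _ _), one_mul, if_true, ← Finset.sum_mul]
    have h2 : ∑ j : Fin q, K j a * K j a' = if a = a' then (q : ℤ) else 0 := cols hK a a'
    rw [h2]
    by_cases ha : a = a'
    · subst ha; simp [mul_comm]
    · simp [ha]
  · simp [hi]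

end Pool.Agent.H669.Had
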