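import Pool.Agent.H669.Had.Main

/-!
# Hadamard matrices with a prescribed cross
-/

namespace Pool.Agent.H669.Had

open Matrix Finset

/-- **A prescribed cross.** -/
theorem cross {p q : ℕ} (X : Fin p → Matrix (Fin q) (Fin q) ℤ)
    (Y : Fin q → Matrix (Fin p) (Fin p) ℤ) (hX : ∀ i, IsHadamard (X i))
    (hY : ∀ j, IsHadamard (Y j)) (a₀ : Fin q) (b₀ : Fin p) (h : ∀ i j, X i a₀ j = Y j i b₀) :
    ∃ H : Matrix (Fin p × Fin q) (Fin q × Fin p) ℤ, IsSign H ∧
      H * H.transpose = ((p * q : ℕ) : ℤ) • (1 : Matrix (Fin p × Fin q) (Fin p × Fin q) ℤ) ∧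
      (∀ i a j, H (i, a) (j, b₀) = X i a j) ∧ ∀ i j b, H (i, a₀) (j, b) = Y j i b := by
  refine ⟨fun x y => X x.1 a₀ y.1 * X x.1 x.2 y.1 * Y y.1 x.1 y.2,
    fun x y => sign_mul (sign_mul ((hX _).1 _ _) ((hX _).1 _ _)) ((hY _).1 _ _),
    smul_one_of_rows ?_, ?_, ?_⟩
  · rintro ⟨i, a⟩ ⟨i', a'⟩
    rw [Fintype.sum_prod_type]
    dsimp only
    have h1 : ∀ j : Fin q, (∑ b : Fin p, X i a₀ j * X i a j * Y j i b *
        (X i' a₀ j * X i' a' j * Y j i' b)) =
        (X i a₀ j * X i' a₀ j) * (X i a j * X i' a' j) * (if i = i' then (p : ℤ) else 0) := by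
      intro j
      rw [← rows (hY j) i i', Finset.mul_sum]
      refine Finset.sum_congr rfl fun b _ => ?_
      ring
    simp only [h1]
    by_cases hi : i = i'
    · subst hi
      simp only [sq_sign ((hX i).1 _ _), one_mul, if_true, ← Finset.sum_mul]
      rw [rows (hX i) a a']
      by_cases ha : a = a'
      · subst ha; simp [mul_comm]
      · simp [ha]
    · simp [hi]
  · intro i a j
    dsimp only
    rw [← h i j, mul_comm (X i a₀ j), mul_assoc, sq_sign ((hX i).1 _ _), mul_one]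
  · intro i j b
    dsimp only
    rw [sq_sign ((hX i).1 _ _), one_mul]

end Pool.Agent.H669.Had
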