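import Pool.Agent.H669.Had.Core
import Pool.Graph.R_pool_sql_team_seeded_1acbe0a2.Y302.AH.Order

/-!
# Hadamard matrices with a prescribed submatrix: main part
-/

namespace Pool.Agent.H669.Had

open Matrix Finset

theorem smul_one_of_rows {I J : Type} [Fintype I] [DecidableEq I] [Fintype J]
    {M : Matrix I J ℤ} {n : ℤ} (h : ∀ x x', ∑ y, M x y * M x' y = if x = x' then n else 0) :
    M * M.transpose = n • (1 : Matrix I I ℤ) := by
  ext x x'
  simp only [Matrix.mul_apply, Matrix.transpose_apply, Matrix.smul_apply, Matrix.one_apply, h]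
  split_ifs <;> simp

theorem rows_of_smul_one {I J : Type} [Fintype I] [DecidableEq I] [Fintype J]
    {M : Matrix I J ℤ} {n : ℤ} (h : M * M.transpose = n • (1 : Matrix I I ℤ)) (x x' : I) :
    ∑ y, M x y * M x' y = if x = x' then n else 0 := by
  have := congrFun (congrFun h x) x'
  simp only [Matrix.mul_apply, Matrix.transpose_apply, Matrix.smul_apply, Matrix.one_apply] at this
  rw [this]
  split_ifs <;> simp

theorem reindex_isHadamard {I J : Type} [Fintype I] [DecidableEq I] [Fintype J] {N : ℕ}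
    {M : Matrix I J ℤ} (hs : IsSign M)
    (h : ∀ x x', ∑ y, M x y * M x' y = if x = x' then (N : ℤ) else 0)
    (e : I ≃ Fin N) (e' : J ≃ Fin N) :
    IsHadamard (M.submatrix e.symm e'.symm) := by
  refine ⟨fun i j => hs _ _, smul_one_of_rows fun x x' => ?_⟩
  simp only [Matrix.submatrix_apply]
  rw [Equiv.sum_comp e'.symm (fun y => M (e.symm x) y * M (e.symm x') y), h]
  simp

/-- the matrix `A` is a submatrix of a Hadamard matrix of order `N` -/
def Embeds {p q : ℕ} (A : Matrix (Fin p) (Fin q) ℤ) (N : ℕ) : Prop :=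
  ∃ H : Matrix (Fin N) (Fin N) ℤ, IsHadamard H ∧
    ∃ (r : Fin p ↪ Fin N) (c : Fin q ↪ Fin N), ∀ i j, H (r i) (c j) = A i j

/-- the matrix `A` is a principal submatrix of a symmetric Hadamard matrix of order
`N`, whose diagonal is constant if the diagonal of `A` is -/
def EmbedsSymm {n : ℕ} (A : Matrix (Fin n) (Fin n) ℤ) (N : ℕ) : Prop :=
  ∃ H : Matrix (Fin N) (Fin N) ℤ, IsHadamard H ∧ H.transpose = H ∧
    (∃ r : Fin n ↪ Fin N, ∀ i j, H (r i) (r j) = A i j) ∧
    ∀ ε : ℤ, (∀ i, A i i = ε) → ∀ i, H i i = ε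

/-- there is a Hadamard matrix of order `n` -/
def Order (n : ℕ) : Prop := ∃ H : Matrix (Fin n) (Fin n) ℤ, IsHadamard H

/-- the block matrix `B` (`p` rows and `q` columns of blocks, which have `q` rows and `p` columns)
with the signs of the blocks given by `A` -/
def signed {p q : ℕ} (A : Matrix (Fin p) (Fin q) ℤ)
    (B : Matrix (Fin p × Fin q) (Fin q × Fin p) ℤ) : Matrix (Fin p × Fin q) (Fin q × Fin p) ℤ :=
  fun x y => A x.1 y.1 * B x y

/-- `B` remains a Hadamard matrix (of order `p q`) for all choices of the signs of its blocks -/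
def FreelySignable {p q : ℕ} (B : Matrix (Fin p × Fin q) (Fin q × Fin p) ℤ) : Prop :=
  ∀ A : Matrix (Fin p) (Fin q) ℤ, IsSign A → IsSign (signed A B) ∧
    signed A B * (signed A B).transpose =
      ((p * q : ℕ) : ℤ) • (1 : Matrix (Fin p × Fin q) (Fin p × Fin q) ℤ)

theorem freelySignable_of_orders {p q : ℕ} {L : Matrix (Fin p) (Fin p) ℤ}
    {K : Matrix (Fin q) (Fin q) ℤ} (hL : IsHadamard L) (hK : IsHadamard K) :
    FreelySignable (fun (x : Fin p × Fin q) (y : Fin q × Fin p) => K y.1 x.2 * L x.1 y.2) := by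
  intro A hA
  have e : signed A (fun (x : Fin p × Fin q) (y : Fin q × Fin p) => K y.1 x.2 * L x.1 y.2) =
      prod A K L := by
    funext x y
    simp [signed, prod, mul_assoc]
  rw [e]
  exact ⟨prod_sign hA hK hL, smul_one_of_rows (prod_rows hA hK hL)⟩

/-- two sums which agree for all signs -/
theorem term_zero {J : Type} [Fintype J] [DecidableEq J] {c : J → ℤ}
    (h : ∀ s : J → ℤ, (∀ j, s j = 1 ∨ s j = -1) → ∑ j, s j * c j = 0) (j : J) : c j = 0 := by
  have h1 := h (fun _ => 1) (fun _ => Or.inl rfl)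
  have h2 := h (fun k => if k = j then -1 else 1) (fun k => by split_ifs <;> simp)
  have h3 : ∑ k, (if k = j then (-1 : ℤ) else 1) * c k = ∑ k, 1 * c k - 2 * c j := by
    have : ∀ k, (if k = j then (-1 : ℤ) else 1) * c k = 1 * c k - (if k = j then 2 * c k else 0) := by
      intro k
      split_ifs <;> ring
    rw [Finset.sum_congr rfl fun k _ => this k, Finset.sum_sub_distrib]
    simp
  rw [h3, h1] at h2
  omega

theorem orders_of_freelySignable {p q : ℕ} (hp : 0 < p) (hq : 0 < q)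
    {B : Matrix (Fin p × Fin q) (Fin q × Fin p) ℤ} (h : FreelySignable B) :
    Order p ∧ Order q := by
  have hone : IsSign (fun (_ : Fin p) (_ : Fin q) => (1 : ℤ)) := fun _ _ => Or.inl rfl
  have hB : IsSign B := by
    have := (h _ hone).1
    intro x y
    simpa [signed] using this x y
  -- the blocks of different rows of blocks
  have hr : ∀ (i i' : Fin p) (a a' : Fin q), i ≠ i' → ∀ j : Fin q,
      ∑ b : Fin p, B (i, a) (j, b) * B (i', a') (j, b) = 0 := by
    intro i i' a a' hne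
    refine term_zero fun s hs => ?_
    have h1 := rows_of_smul_one
      (h (fun k j => if k = i then s j else 1) (fun k j => by
        dsimp only
        split_ifs
        · exact hs j
        · exact Or.inl rfl)).2 (i, a) (i', a')
    rw [if_neg (by simp [hne]), Fintype.sum_prod_type] at h1
    rw [← h1]
    refine Finset.sum_congr rfl fun j _ => ?_
    rw [Finset.mul_sum]
    refine Finset.sum_congr rfl fun b _ => ?_
    simp [signed, Ne.symm hne, mul_assoc]
  -- the columns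
  have hc : ∀ (j j' : Fin q) (b b' : Fin p), j ≠ j' → ∀ i : Fin p,
      ∑ a : Fin q, B (i, a) (j, b) * B (i, a) (j', b') = 0 := by
    intro j j' b b' hne
    refine term_zero fun s hs => ?_
    have hA : IsSign (fun (i : Fin p) (k : Fin q) => if k = j then s i else (1 : ℤ)) := by
      intro i k
      dsimp only
      split_ifs
      · exact hs i
      · exact Or.inl rfl
    have h0 := h _ hA
    have h1 : IsHadamard ((signed (fun (i : Fin p) (k : Fin q) => if k = j then s i else (1 : ℤ))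
        B).submatrix (finProdFinEquiv (m := p) (n := q)).symm
          ((Equiv.prodComm (Fin q) (Fin p)).trans (finProdFinEquiv (m := p) (n := q))).symm) :=
      reindex_isHadamard h0.1 (rows_of_smul_one h0.2) _ _
    have h2 := cols h1
      (((Equiv.prodComm (Fin q) (Fin p)).trans (finProdFinEquiv (m := p) (n := q))) (j, b))
      (((Equiv.prodComm (Fin q) (Fin p)).trans (finProdFinEquiv (m := p) (n := q))) (j', b'))
    rw [if_neg (by simp [hne])] at h2
    simp only [Matrix.submatrix_apply, Equiv.symm_apply_apply] at h2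
    rw [Equiv.sum_comp (finProdFinEquiv (m := p) (n := q)).symm (fun x =>
      signed (fun (i : Fin p) (k : Fin q) => if k = j then s i else (1 : ℤ)) B x (j, b) *
      signed (fun (i : Fin p) (k : Fin q) => if k = j then s i else (1 : ℤ)) B x (j', b')),
      Fintype.sum_prod_type] at h2
    rw [← h2]
    refine Finset.sum_congr rfl fun i _ => ?_
    rw [Finset.mul_sum]
    refine Finset.sum_congr rfl fun a _ => ?_
    simp [signed, Ne.symm hne, mul_assoc]
  constructor
  · refine ⟨fun i b => B (i, ⟨0, hq⟩) (⟨0, hq⟩, b), fun i b => hB _ _, smul_one_of_rows ?_⟩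
    intro i i'
    by_cases hi : i = i'
    · subst hi
      simp only [if_true]
      rw [Finset.sum_congr rfl fun b _ => sq_sign (hB (i, ⟨0, hq⟩) (⟨0, hq⟩, b))]
      simp
    · rw [if_neg hi]
      exact hr i i' _ _ hi _
  · refine ⟨fun j a => B (⟨0, hp⟩, a) (j, ⟨0, hp⟩), fun j a => hB _ _, smul_one_of_rows ?_⟩
    intro j j'
    by_cases hj : j = j'
    · subst hj
      simp only [if_true]
      rw [Finset.sum_congr rfl fun a _ => sq_sign (hB (⟨0, hp⟩, a) (j, ⟨0, hp⟩))]
      simp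
    · rw [if_neg hj]
      exact hc j j' _ _ hj _

theorem embeds_of_orders {p q : ℕ} (hp0 : 0 < p) (hq0 : 0 < q) (hp : Order p) (hq : Order q)
    {A : Matrix (Fin p) (Fin q) ℤ} (hA : IsSign A) : Embeds A (p * q) := by
  obtain ⟨L, hL⟩ := hp
  obtain ⟨K, hK⟩ := hq
  have hL' := norm_isHadamard hL ⟨0, hp0⟩
  have hK' := norm_isHadamard (transpose_isHadamard hK) ⟨0, hq0⟩
  set e : Fin p × Fin q ≃ Fin (p * q) := finProdFinEquiv
  set e' : Fin q × Fin p ≃ Fin (p * q) := (Equiv.prodComm (Fin q) (Fin p)).trans finProdFinEquiv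
  refine ⟨(prod A (norm K.transpose ⟨0, hq0⟩) (norm L ⟨0, hp0⟩)).submatrix e.symm e'.symm,
    reindex_isHadamard (prod_sign hA hK' hL') (prod_rows hA hK' hL') e e',
    ⟨fun i => e (i, ⟨0, hq0⟩), fun i i' h => by simpa using h⟩,
    ⟨fun j => e' (j, ⟨0, hp0⟩), fun j j' h => by simpa using h⟩, fun i j => ?_⟩
  change prod A (norm K.transpose ⟨0, hq0⟩) (norm L ⟨0, hp0⟩) (e.symm (e (i, ⟨0, hq0⟩)))
    (e'.symm (e' (j, ⟨0, hp0⟩))) = A i j
  rw [Equiv.symm_apply_apply, Equiv.symm_apply_apply]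
  simp only [prod]
  rw [norm_col (transpose_isHadamard hK), norm_col hL]
  simp

theorem embedsSymm_of_order {n : ℕ} (hn0 : 0 < n) (hn : Order n)
    {A : Matrix (Fin n) (Fin n) ℤ} (hA : IsSign A) (hs : A.transpose = A) :
    EmbedsSymm A (n * n) := by
  obtain ⟨K, hK⟩ := hn
  have hK' := norm_isHadamard hK ⟨0, hn0⟩
  set K' := norm K ⟨0, hn0⟩
  set e : Fin n × Fin n ≃ Fin (n * n) := finProdFinEquiv
  have hsymm : ∀ i j, A i j = A j i := fun i j => congrFun (congrFun hs j) i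
  refine ⟨(prod A K' K').submatrix e.symm e.symm,
    reindex_isHadamard (prod_sign hA hK' hK') (prod_rows hA hK' hK') e e, ?_,
    ⟨⟨fun i => e (i, ⟨0, hn0⟩), fun i i' h => by simpa using h⟩, fun i j => ?_⟩, ?_⟩
  · ext x y
    simp only [Matrix.transpose_apply, Matrix.submatrix_apply, prod]
    rw [hsymm (e.symm y).1 (e.symm x).1]
    ring
  · change prod A K' K' (e.symm (e (i, ⟨0, hn0⟩))) (e.symm (e (j, ⟨0, hn0⟩))) = A i j
    rw [Equiv.symm_apply_apply, Equiv.symm_apply_apply]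
    have h1 : ∀ k, K' k ⟨0, hn0⟩ = 1 := fun k => norm_col hK _ k
    simp only [prod]
    rw [h1, h1, mul_one, mul_one]
  · intro ε hε x
    simp only [Matrix.submatrix_apply, prod]
    rw [hε, mul_assoc, sq_sign (hK'.1 _ _), mul_one]

/-- submatrices -/
theorem Embeds.sub {p q p' q' N : ℕ} {A : Matrix (Fin p) (Fin q) ℤ}
    {A' : Matrix (Fin p') (Fin q') ℤ} (h : Embeds A' N) (f : Fin p ↪ Fin p') (g : Fin q ↪ Fin q')
    (hA : ∀ i j, A' (f i) (g j) = A i j) : Embeds A N := by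
  obtain ⟨H, hH, r, c, hrc⟩ := h
  exact ⟨H, hH, f.trans r, g.trans c, fun i j => by simp [hrc, hA]⟩

/-- the sum of the entries of a submatrix -/
theorem lindsey {p q N : ℕ} {H : Matrix (Fin N) (Fin N) ℤ} (hH : IsHadamard H)
    (r : Fin p ↪ Fin N) (c : Fin q ↪ Fin N) :
    (∑ i, ∑ j, H (r i) (c j)) ^ 2 ≤ (N : ℤ) * p * q := by
  have h1 : (∑ j, (∑ i, H (r i) (c j)) * 1) ^ 2 ≤
      (∑ j, (∑ i, H (r i) (c j)) ^ 2) * ∑ _j : Fin q, (1 : ℤ) ^ 2 :=
    Finset.sum_mul_sq_le_sq_mul_sq _ _ _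
  have h2 : (∑ j : Fin q, (∑ i, H (r i) (c j)) ^ 2) ≤ ∑ j : Fin N, (∑ i, H (r i) j) ^ 2 := by
    rw [← Finset.sum_map Finset.univ c (fun j => (∑ i, H (r i) j) ^ 2)]
    exact Finset.sum_le_sum_of_subset_of_nonneg (Finset.subset_univ _)
      (fun j _ _ => sq_nonneg _)
  have h3 : ∑ j : Fin N, (∑ i, H (r i) j) ^ 2 = (N : ℤ) * p := by
    have : ∀ j : Fin N, (∑ i, H (r i) j) ^ 2 = ∑ i, ∑ i', H (r i) j * H (r i') j := by
      intro j
      rw [sq, Finset.sum_mul_sum]
    rw [Finset.sum_congr rfl fun j _ => this j, Finset.sum_comm]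
    have : ∀ i : Fin p, ∑ j : Fin N, ∑ i', H (r i) j * H (r i') j = N := by
      intro i
      rw [Finset.sum_comm]
      simp only [rows hH]
      simp
    rw [Finset.sum_congr rfl fun i _ => this i]
    simp [mul_comm]
  rw [Finset.sum_comm]
  simp only [mul_one, one_pow, Finset.sum_const, Finset.card_univ, Fintype.card_fin,
    nsmul_eq_mul] at h1
  calc _ ≤ _ := h1
    _ ≤ ((N : ℤ) * p) * q := by
      refine mul_le_mul_of_nonneg_right (h2.trans h3.le) (by positivity)

theorem lower {p q N : ℕ} (hp : 0 < p) (hq : 0 < q)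
    (h : Embeds (fun (_ : Fin p) (_ : Fin q) => (1 : ℤ)) N) : p * q ≤ N := by
  obtain ⟨H, hH, r, c, hrc⟩ := h
  have h1 := lindsey hH r c
  simp only [hrc, Finset.sum_const, Finset.card_univ, Fintype.card_fin, nsmul_eq_mul,
    mul_one] at h1
  have h2 : ((p : ℤ) * q) * ((p : ℤ) * q) ≤ (N : ℤ) * ((p : ℤ) * q) := by nlinarith
  have h3 : (0 : ℤ) < (p : ℤ) * q := by positivity
  have h4 := le_of_mul_le_mul_right h2 h3
  exact_mod_cast h4

/-- extension of a sign matrix by ones -/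
theorem exists_extension {p q p' q' : ℕ} (hp : p ≤ p') (hq : q ≤ q')
    {A : Matrix (Fin p) (Fin q) ℤ} (hA : IsSign A) :
    ∃ A' : Matrix (Fin p') (Fin q') ℤ, IsSign A' ∧
      ∀ i j, A' (Fin.castLE hp i) (Fin.castLE hq j) = A i j := by
  refine ⟨fun i j => if h : (i : ℕ) < p ∧ (j : ℕ) < q then A ⟨i, h.1⟩ ⟨j, h.2⟩ else 1, ?_, ?_⟩
  · intro i j
    dsimp only
    split_ifs
    · exact hA _ _
    · exact Or.inl rfl
  · intro i j
    simp

theorem exists_extension_symm {n n' : ℕ} (hn : n ≤ n') (hn0 : 0 < n)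
    {A : Matrix (Fin n) (Fin n) ℤ} (hA : IsSign A) (hs : A.transpose = A) :
    ∃ A' : Matrix (Fin n') (Fin n') ℤ, IsSign A' ∧ A'.transpose = A' ∧
      (∀ i j, A' (Fin.castLE hn i) (Fin.castLE hn j) = A i j) ∧
      ∀ ε : ℤ, (∀ i, A i i = ε) → ∀ i, A' i i = ε := by
  have hsymm : ∀ i j, A i j = A j i := fun i j => congrFun (congrFun hs j) i
  refine ⟨fun i j => if h : (i : ℕ) < n ∧ (j : ℕ) < n then A ⟨i, h.1⟩ ⟨j, h.2⟩ else
    A ⟨0, hn0⟩ ⟨0, hn0⟩, ?_, ?_, ?_, ?_⟩
  · intro i j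
    dsimp only
    split_ifs
    · exact hA _ _
    · exact hA _ _
  · ext i j
    change (if h : (j : ℕ) < n ∧ (i : ℕ) < n then A ⟨j, h.1⟩ ⟨i, h.2⟩ else
      A ⟨0, hn0⟩ ⟨0, hn0⟩) = (if h : (i : ℕ) < n ∧ (j : ℕ) < n then A ⟨i, h.1⟩ ⟨j, h.2⟩ else
      A ⟨0, hn0⟩ ⟨0, hn0⟩)
    by_cases h : (i : ℕ) < n ∧ (j : ℕ) < n
    · rw [dif_pos h, dif_pos ⟨h.2, h.1⟩, hsymm]
    · rw [dif_neg h, dif_neg (fun h' => h ⟨h'.2, h'.1⟩)]
  · intro i j
    simp
  · intro ε hε i
    dsimp only
    split_ifs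
    · exact hε _
    · exact hε _

/-- a Hadamard order just above `n` -/
theorem near : ∃ n₀ : ℕ, ∀ n : ℕ, n₀ ≤ n → ∃ m : ℕ, n ≤ m ∧
    (m : ℝ) ≤ n + Real.log (Real.log n) ∧ Order m := by
  obtain ⟨n₀, h⟩ := Pool.Agent.Y302.AH.near_order
  refine ⟨n₀, fun n hn => ?_⟩
  obtain ⟨r, hr, H, h1, h2⟩ := h n hn
  refine ⟨n + r, by omega, ?_, H, h1, h2⟩
  push_cast
  linarith

end Pool.Agent.H669.Had
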