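import Pool.Agent.H669.Had.Main

/-!
# Strongly regular graphs from symmetric Hadamard matrices with constant diagonal, and a lower bound
-/

namespace Pool.Agent.H669.Had

open Matrix Finset

/-- An odd number `q ≥ 3` of columns: a Hadamard matrix with a `p × q` submatrix of ones has order
at least `p (q + 1)`. -/
theorem lower_odd {p q N : ℕ} (hq : 1 < q) (hodd : Odd q)
    (h : Embeds (fun (_ : Fin p) (_ : Fin q) => (1 : ℤ)) N) : p * (q + 1) ≤ N := by
  obtain ⟨H, hH, r, c, hrc⟩ := h
  -- the row sums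
  have h3 : ∑ i : Fin N, (∑ j, H i (c j)) ^ 2 = (N : ℤ) * q := by
    have : ∀ i : Fin N, (∑ j, H i (c j)) ^ 2 = ∑ j, ∑ j', H i (c j) * H i (c j') := by
      intro i
      rw [sq, Finset.sum_mul_sum]
    rw [Finset.sum_congr rfl fun i _ => this i, Finset.sum_comm]
    have : ∀ j : Fin q, ∑ i : Fin N, ∑ j', H i (c j) * H i (c j') = N := by
      intro j
      rw [Finset.sum_comm]
      simp only [cols hH]
      simp
    rw [Finset.sum_congr rfl fun j _ => this j]
    simp [mul_comm]
  have hoddsum : ∀ i : Fin N, 1 ≤ (∑ j, H i (c j)) ^ 2 := by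
    intro i
    have h1 : (∑ j, H i (c j)) % 2 = 1 := by
      have h2 : ∀ j : Fin q, ∃ k : ℤ, H i (c j) = 1 + 2 * k := by
        intro j
        rcases hH.1 i (c j) with h | h
        · exact ⟨0, by rw [h]; norm_num⟩
        · exact ⟨-1, by rw [h]; norm_num⟩
      choose k hk using h2
      rw [Finset.sum_congr rfl fun j _ => hk j, Finset.sum_add_distrib, ← Finset.mul_sum]
      simp only [Finset.sum_const, Finset.card_univ, Fintype.card_fin, nsmul_eq_mul, mul_one]
      obtain ⟨m, hm⟩ := hodd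
      have hm' : (q : ℤ) = 2 * m + 1 := by exact_mod_cast hm
      omega
    have h4 : (∑ j, H i (c j)) ≠ 0 := by
      intro h0
      rw [h0] at h1
      norm_num at h1
    have : 0 < (∑ j, H i (c j)) ^ 2 := by positivity
    omega
  have hrow : ∀ i : Fin p, (∑ j, H (r i) (c j)) ^ 2 = (q : ℤ) ^ 2 := by
    intro i
    simp [hrc]
  have h5 : ∑ i : Fin N, ((∑ j, H i (c j)) ^ 2 - 1) ≥ ∑ i : Fin p, ((q : ℤ) ^ 2 - 1) := by
    calc ∑ i : Fin p, ((q : ℤ) ^ 2 - 1) = ∑ i : Fin p, ((∑ j, H (r i) (c j)) ^ 2 - 1) :=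
          Finset.sum_congr rfl fun i _ => by rw [hrow]
      _ = ∑ i ∈ Finset.univ.map r, ((∑ j, H i (c j)) ^ 2 - 1) := by rw [Finset.sum_map]
      _ ≤ ∑ i : Fin N, ((∑ j, H i (c j)) ^ 2 - 1) :=
          Finset.sum_le_sum_of_subset_of_nonneg (Finset.subset_univ _)
            (fun i _ _ => by have := hoddsum i; omega)
  rw [Finset.sum_sub_distrib, h3] at h5
  simp only [Finset.sum_const, Finset.card_univ, Fintype.card_fin, nsmul_eq_mul, mul_one] at h5
  have h6 : ((q : ℤ) - 1) * ((p : ℤ) * (q + 1)) ≤ ((q : ℤ) - 1) * N := by nlinarith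
  have h7 : (0 : ℤ) < (q : ℤ) - 1 := by
    have : (1 : ℤ) < q := by exact_mod_cast hq
    omega
  have h8 := le_of_mul_le_mul_left h6 h7
  exact_mod_cast h8

/-- counting the common values `-1` of two rows -/
theorem card_neg {N : ℕ} {f g : Fin N → ℤ} (hf : ∀ y, f y = 1 ∨ f y = -1)
    (hg : ∀ y, g y = 1 ∨ g y = -1) (h1 : ∑ y, f y = 0) (h2 : ∑ y, g y = 0)
    (h3 : ∑ y, f y * g y = 0) :
    4 * ((Finset.univ.filter fun y => f y = -1 ∧ g y = -1).card : ℤ) = N := by
  have h4 : ∀ y, (if f y = -1 ∧ g y = -1 then (4 : ℤ) else 0) = 1 - f y - g y + f y * g y := by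
    intro y
    rcases hf y with h | h <;> rcases hg y with h' | h' <;> rw [h, h'] <;> norm_num
  have h5 : ∑ y, (if f y = -1 ∧ g y = -1 then (4 : ℤ) else 0) = N := by
    rw [Finset.sum_congr rfl fun y _ => h4 y, Finset.sum_add_distrib, Finset.sum_sub_distrib,
      Finset.sum_sub_distrib, h1, h2, h3]
    simp
  rw [← Finset.sum_filter, Finset.sum_const, nsmul_eq_mul] at h5
  linarith

theorem card_neg_one {N : ℕ} {f : Fin N → ℤ} (hf : ∀ y, f y = 1 ∨ f y = -1)
    (h1 : ∑ y, f y = 0) :
    2 * ((Finset.univ.filter fun y => f y = -1).card : ℤ) = N := by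
  have h4 : ∀ y, (if f y = -1 then (2 : ℤ) else 0) = 1 - f y := by
    intro y
    rcases hf y with h | h <;> rw [h] <;> norm_num
  have h5 : ∑ y, (if f y = -1 then (2 : ℤ) else 0) = N := by
    rw [Finset.sum_congr rfl fun y _ => h4 y, Finset.sum_sub_distrib, h1]
    simp
  rw [← Finset.sum_filter, Finset.sum_const, nsmul_eq_mul] at h5
  linarith

/-- the graph `G` is an induced subgraph of a strongly regular graph with the parameters
`(N - 1, N / 2, N / 4, N / 4)` -/
def InSRG {V : Type} (G : SimpleGraph V) (N : ℕ) : Prop :=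
  ∃ (W : Type) (_ : Fintype W) (G' : SimpleGraph W) (_ : DecidableRel G'.Adj)
    (_ : DecidableEq W), G'.IsSRGWith (N - 1) (N / 2) (N / 4) (N / 4) ∧ Nonempty (G ↪g G')

theorem inSRG_of_hadamard {N : ℕ} {C : Matrix (Fin N) (Fin N) ℤ} (hC : IsHadamard C)
    (hs : ∀ x y, C x y = C y x) (hd : ∀ x, C x x = 1) (x₀ : Fin N) (h0 : ∀ y, C x₀ y = 1)
    {V : Type} (G : SimpleGraph V) (f : V ↪ Fin N) (hf : ∀ v, f v ≠ x₀)
    (hG : ∀ v w, G.Adj v w ↔ C (f v) (f w) = -1) : InSRG G N := by
  classical
  let G' : SimpleGraph {x : Fin N // x ≠ x₀} :=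
    { Adj := fun x y => C x y = -1
      symm := ⟨fun x y h => by rw [hs]; exact h⟩
      loopless := ⟨fun x h => by
        have : C x x = -1 := h
        rw [hd] at this
        norm_num at this⟩ }
  have hsum : ∀ x : Fin N, x ≠ x₀ → ∑ y, C x y = 0 := by
    intro x hx
    have := rows hC x x₀
    rw [if_neg hx] at this
    rw [← this]
    refine Finset.sum_congr rfl fun y _ => ?_
    rw [h0, mul_one]
  have hne : ∀ (x : Fin N) (y : Fin N), C x y = -1 → y ≠ x₀ := by
    intro x y h hy
    rw [hy, hs, h0] at h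
    norm_num at h
  have hcommon : ∀ v w : {x : Fin N // x ≠ x₀}, v ≠ w →
      Fintype.card (G'.commonNeighbors v w) = N / 4 := by
    intro v w hvw
    have h4 := card_neg (f := fun y => C v y) (g := fun y => C w y) (fun y => hC.1 _ _)
      (fun y => hC.1 _ _) (hsum v v.2) (hsum w w.2) (by
        have := rows hC v w
        rw [if_neg (fun h => hvw (Subtype.ext h))] at this
        exact this)
    have h5 : Fintype.card (G'.commonNeighbors v w) =
        (Finset.univ.filter fun y : Fin N => C v y = -1 ∧ C w y = -1).card := by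
      rw [← Fintype.card_coe]
      refine Fintype.card_congr
        { toFun := fun y => ⟨y.1.1, by
            have h := (SimpleGraph.mem_commonNeighbors G').1 y.2
            rw [Finset.mem_filter]
            exact ⟨Finset.mem_univ _, h.1, h.2⟩⟩
          invFun := fun y => ⟨⟨y.1, hne v y.1 (Finset.mem_filter.1 y.2).2.1⟩,
            (SimpleGraph.mem_commonNeighbors G').2
              ⟨(Finset.mem_filter.1 y.2).2.1, (Finset.mem_filter.1 y.2).2.2⟩⟩
          left_inv := fun y => rfl
          right_inv := fun y => rfl }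
    rw [h5]
    omega
  refine ⟨{x : Fin N // x ≠ x₀}, inferInstance, G', inferInstance, inferInstance, ?_, ?_⟩
  · constructor
    · rw [Fintype.card_subtype_compl]
      simp
    · intro v
      have h4 := card_neg_one (f := fun y => C v y) (fun y => hC.1 _ _) (hsum v v.2)
      have h5 : G'.degree v = (Finset.univ.filter fun y : Fin N => C v y = -1).card := by
        rw [← SimpleGraph.card_neighborFinset_eq_degree, ← Fintype.card_coe, ← Fintype.card_coe]
        refine Fintype.card_congr
          { toFun := fun y => ⟨y.1.1, by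
              have h := (SimpleGraph.mem_neighborFinset G' v y.1).1 y.2
              rw [Finset.mem_filter]
              exact ⟨Finset.mem_univ _, h⟩⟩
            invFun := fun y => ⟨⟨y.1, hne v y.1 (Finset.mem_filter.1 y.2).2⟩,
              (SimpleGraph.mem_neighborFinset G' v _).2 (Finset.mem_filter.1 y.2).2⟩
            left_inv := fun y => rfl
            right_inv := fun y => rfl }
      rw [h5]
      omega
    · intro v w h
      exact hcommon v w (G'.ne_of_adj h)
    · intro v w h _
      exact hcommon v w h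
  · refine ⟨⟨⟨fun v => ⟨f v, hf v⟩, fun v w h => f.injective (Subtype.ext_iff.1 h)⟩, ?_⟩⟩
    intro v w
    exact (hG v w).symm

/-- every graph on `n - 1` vertices is an induced subgraph of a strongly regular graph -/
theorem inSRG_of_embeds {n N : ℕ} {A : Matrix (Fin (n + 1)) (Fin (n + 1)) ℤ}
    (h : EmbedsSymm A N) (G : SimpleGraph (Fin n)) (hd : ∀ i, A i i = 1)
    (h0 : ∀ i, A 0 i = 1) (hG : ∀ i j : Fin n, G.Adj i j ↔ A i.succ j.succ = -1) :
    InSRG G N := by
  obtain ⟨H, hH, hHs, ⟨r, hr⟩, hHd⟩ := h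
  have hs : ∀ x y, H x y = H y x := fun x y => congrFun (congrFun hHs y) x
  have hdiag := hHd 1 hd
  set x₀ := r 0
  have hA : ∀ i, H x₀ (r i) = 1 := fun i => by rw [hr, h0]
  refine inSRG_of_hadamard (C := fun x y => H x y * (H x₀ x * H x₀ y)) ?_ ?_ ?_ x₀ ?_ G
    ⟨fun i => r i.succ, fun i j h => Fin.succ_injective _ (r.injective h)⟩ ?_ ?_
  · refine ⟨fun x y => sign_mul (hH.1 _ _) (sign_mul (hH.1 _ _) (hH.1 _ _)),
      smul_one_of_rows fun x x' => ?_⟩
    have : ∀ y, H x y * (H x₀ x * H x₀ y) * (H x' y * (H x₀ x' * H x₀ y)) =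
        H x₀ x * H x₀ x' * (H x y * H x' y) := by
      intro y
      have := sq_sign (hH.1 x₀ y)
      linear_combination (H x₀ x * H x₀ x' * (H x y * H x' y)) * this
    simp only [this, ← Finset.mul_sum, rows hH]
    by_cases hx : x = x'
    · subst hx
      simp [sq_sign (hH.1 x₀ x)]
    · simp [hx]
  · intro x y
    rw [hs x y]
    ring
  · intro x
    rw [hdiag, sq_sign (hH.1 _ _), mul_one]
  · intro y
    rw [hdiag, one_mul, sq_sign (hH.1 _ _)]
  · intro i h
    exact Fin.succ_ne_zero i (r.injective h)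
  · intro i j
    change G.Adj i j ↔ H (r i.succ) (r j.succ) * (H x₀ (r i.succ) * H x₀ (r j.succ)) = -1
    rw [hA, hA, hr, hG]
    simp

/-- the sign matrix of a graph with an additional isolated vertex -/
def graphMatrix {n : ℕ} (G : SimpleGraph (Fin n)) [DecidableRel G.Adj] :
    Matrix (Fin (n + 1)) (Fin (n + 1)) ℤ :=
  fun i j => Fin.cases 1 (fun i' => Fin.cases 1 (fun j' => if G.Adj i' j' then -1 else 1) j) i

theorem graphMatrix_spec {n : ℕ} (G : SimpleGraph (Fin n)) [DecidableRel G.Adj] :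
    IsSign (graphMatrix G) ∧ (graphMatrix G).transpose = graphMatrix G ∧
      (∀ i, graphMatrix G i i = 1) ∧ (∀ i, graphMatrix G 0 i = 1) ∧
      ∀ i j : Fin n, G.Adj i j ↔ graphMatrix G i.succ j.succ = -1 := by
  refine ⟨?_, ?_, ?_, ?_, ?_⟩
  · intro i j
    refine Fin.cases ?_ (fun i' => ?_) i
    · exact Or.inl rfl
    · refine Fin.cases ?_ (fun j' => ?_) j
      · exact Or.inl rfl
      · change (if G.Adj i' j' then (-1 : ℤ) else 1) = 1 ∨ (if G.Adj i' j' then (-1 : ℤ) else 1) = -1
        split_ifs <;> simp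
  · ext i j
    change graphMatrix G j i = graphMatrix G i j
    refine Fin.cases ?_ (fun i' => ?_) i
    · refine Fin.cases ?_ (fun j' => ?_) j
      · rfl
      · rfl
    · refine Fin.cases ?_ (fun j' => ?_) j
      · rfl
      · change (if G.Adj j' i' then (-1 : ℤ) else 1) = (if G.Adj i' j' then (-1 : ℤ) else 1)
        simp only [G.adj_comm j' i']
  · intro i
    refine Fin.cases ?_ (fun i' => ?_) i
    · rfl
    · change (if G.Adj i' i' then (-1 : ℤ) else 1) = 1
      simp
  · intro i
    rfl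
  · intro i j
    change G.Adj i j ↔ (if G.Adj i j then (-1 : ℤ) else 1) = -1
    split_ifs with h <;> simp [h]

end Pool.Agent.H669.Had
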